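import Pool.Agent.Helper5.KPA.StP

/-! PROJECT KP (MP_26be5b_ag), module MTE: second order upper bounds by telescoping. -/

set_option autoImplicit false

namespace Pool.Agent.Helper73.KPA

open Pool.Agent.Helper5.KPA Pool.Agent.Helper52.KP MvPolynomial

private theorem absle {s x : ℝ} (h : |s| ≤ x) : |x + s| ≤ 2 * x := by
  have h1 := abs_le.1 h
  rw [abs_le]
  constructor <;> linarith [abs_nonneg s]

private theorem shA (s : ℝ) (n : ℕ) : ∀ x : ℝ, |s| ≤ x → |(x + s) ^ n| ≤ 2 ^ n * x ^ n := by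
  intro x hx
  rw [abs_pow, ← mul_pow]
  exact pow_le_pow_left₀ (abs_nonneg _) (absle hx) n

private theorem shB (s : ℝ) (n : ℕ) : ∃ K : ℝ, ∀ x : ℝ, |s| ≤ x →
    |(x + s) ^ (n + 1) - x ^ (n + 1)| ≤ K * x ^ n := by
  induction n with
  | zero =>
    refine ⟨|s|, fun x hx => ?_⟩
    simp
  | succ n ih =>
    obtain ⟨K, hK⟩ := ih
    refine ⟨2 * K + |s|, fun x hx => ?_⟩
    have hx0 : 0 ≤ x := (abs_nonneg s).trans hx
    have e : (x + s) ^ (n + 1 + 1) - x ^ (n + 1 + 1) =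
        (x + s) * ((x + s) ^ (n + 1) - x ^ (n + 1)) + s * x ^ (n + 1) := by ring
    rw [e]
    refine (abs_add_le _ _).trans ?_
    rw [abs_mul, abs_mul, abs_of_nonneg (pow_nonneg hx0 (n + 1))]
    have h1 : |x + s| * |(x + s) ^ (n + 1) - x ^ (n + 1)| ≤ (2 * x) * (K * x ^ n) :=
      mul_le_mul (absle hx) (hK x hx) (abs_nonneg _) (by positivity)
    calc _ ≤ (2 * x) * (K * x ^ n) + |s| * x ^ (n + 1) := by linarith
      _ = (2 * K + |s|) * x ^ (n + 1) := by ring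

private theorem shC (s : ℝ) (n : ℕ) : ∃ K : ℝ, ∀ x : ℝ, |s| ≤ x →
    |(x + s) ^ (n + 2) - (x ^ (n + 2) + ((n : ℝ) + 2) * s * x ^ (n + 1))| ≤ K * x ^ n := by
  induction n with
  | zero =>
    refine ⟨s ^ 2, fun x hx => ?_⟩
    have e : (x + s) ^ (0 + 2) - (x ^ (0 + 2) + (((0 : ℕ) : ℝ) + 2) * s * x ^ (0 + 1)) = s ^ 2 := by
      push_cast; ring
    rw [e, pow_zero, mul_one, abs_of_nonneg (sq_nonneg s)]
  | succ n ih =>
    obtain ⟨K, hK⟩ := ih
    refine ⟨2 * K + ((n : ℝ) + 2) * s ^ 2, fun x hx => ?_⟩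
    have hx0 : 0 ≤ x := (abs_nonneg s).trans hx
    have e : (x + s) ^ (n + 1 + 2) -
        (x ^ (n + 1 + 2) + (((n + 1 : ℕ) : ℝ) + 2) * s * x ^ (n + 1 + 1)) =
        (x + s) * ((x + s) ^ (n + 2) - (x ^ (n + 2) + ((n : ℝ) + 2) * s * x ^ (n + 1))) +
          (((n : ℝ) + 2) * s ^ 2) * x ^ (n + 1) := by push_cast; ring
    rw [e]
    refine (abs_add_le _ _).trans ?_
    rw [abs_mul]
    have h0 : 0 ≤ (((n : ℝ) + 2) * s ^ 2) * x ^ (n + 1) := by positivity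
    rw [abs_of_nonneg h0]
    have h1 : |x + s| * |(x + s) ^ (n + 2) - (x ^ (n + 2) + ((n : ℝ) + 2) * s * x ^ (n + 1))| ≤
        (2 * x) * (K * x ^ n) :=
      mul_le_mul (absle hx) (hK x hx) (abs_nonneg _) (by positivity)
    calc _ ≤ (2 * x) * (K * x ^ n) + (((n : ℝ) + 2) * s ^ 2) * x ^ (n + 1) := by linarith
      _ = (2 * K + ((n : ℝ) + 2) * s ^ 2) * x ^ (n + 1) := by ring

/-- the shift of a second order bound -/
private theorem shD (n : ℕ) (s a b K : ℝ) : ∃ K' : ℝ, ∀ x : ℝ, |s| ≤ x →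
    a * (x + s) ^ (n + 2) + b * (x + s) ^ (n + 1) + K * (x + s) ^ n ≤
      a * x ^ (n + 2) + (b + a * ((n : ℝ) + 2) * s) * x ^ (n + 1) + K' * x ^ n := by
  obtain ⟨K1, h1⟩ := shC s n
  obtain ⟨K2, h2⟩ := shB s n
  refine ⟨|a| * K1 + |b| * K2 + |K| * 2 ^ n, fun x hx => ?_⟩
  have hx0 : 0 ≤ x := (abs_nonneg s).trans hx
  have e1 := (le_abs_self _).trans ((abs_mul a _).le.trans
    (mul_le_mul_of_nonneg_left (h1 x hx) (abs_nonneg a)))
  have e2 := (le_abs_self _).trans ((abs_mul b _).le.trans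
    (mul_le_mul_of_nonneg_left (h2 x hx) (abs_nonneg b)))
  have e3 := (le_abs_self _).trans ((abs_mul K _).le.trans
    (mul_le_mul_of_nonneg_left (shA s n x hx) (abs_nonneg K)))
  nlinarith [e1, e2, e3]

theorem hMTE : StMTE := by
  intro m α γ δ κ r D hm hr hδκ h0 h1 hrec
  obtain ⟨n, rfl⟩ : ∃ n, m = n + 2 := ⟨m - 2, by omega⟩
  have em1 : n + 2 - 1 = n + 1 := by omega
  have em2 : n + 2 - 2 = n := by omega
  simp only [em1, em2] at h1 ⊢
  obtain ⟨K0, hK0⟩ := h0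
  simp only [em1] at hK0
  have hD0 : ∀ k : ℕ, 1 ≤ k → |D 0 k - (α * (k : ℝ) ^ (n + 2) + γ * (k : ℝ) ^ (n + 1))| ≤
      K0 * (k : ℝ) ^ n := by
    intro k hk
    have h := hK0 k hk
    have hk0 : (0 : ℝ) < (k : ℝ) ^ 2 := by
      have : (0 : ℝ) < (k : ℝ) := by exact_mod_cast hk
      positivity
    have e : K0 * (k : ℝ) ^ (n + 2) = (K0 * (k : ℝ) ^ n) * (k : ℝ) ^ 2 := by ring
    rw [e] at h
    exact le_of_mul_le_mul_right h hk0
  -- the cast of a difference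
  have hsub : ∀ k : ℕ, δ ≤ k → ((k - δ : ℕ) : ℝ) = (k : ℝ) + (-(δ : ℝ)) := by
    intro k hk
    rw [Nat.cast_sub hk]; ring
  have hadd : ∀ k : ℕ, ((k + κ : ℕ) : ℝ) = (k : ℝ) + (κ : ℝ) := fun k => by push_cast; ring
  set c : ℝ := ((n : ℝ) + 2) * α * δ - 2 * γ with hc
  -- the differences
  have hF : ∀ p : ℕ, ∃ (K : ℝ) (k₀ : ℕ), ∀ k : ℕ, k₀ ≤ k →
      D (p + 1) k - D p (k - δ) ≤ c * (k : ℝ) ^ (n + 1) + K * (k : ℝ) ^ n := by
    intro p
    induction p with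
    | zero =>
      obtain ⟨K1, hK1⟩ := h1
      obtain ⟨K2, hK2⟩ := shD n (-(δ : ℝ)) (-α) (-γ) K0
      refine ⟨K1 + K2, δ + 1, fun k hk => ?_⟩
      have a1 := hK1 k (by omega)
      have a2 := hK2 (k : ℝ) (by
        rw [abs_neg, abs_of_nonneg (Nat.cast_nonneg δ)]
        exact_mod_cast (by omega : δ ≤ k))
      have a3 := (abs_le.1 (hD0 (k - δ) (by omega))).1
      rw [hsub k (by omega)] at a3
      simp only [zero_add]
      nlinarith [a1, a2, a3]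
    | succ p ih =>
      obtain ⟨K, k₀, hK⟩ := ih
      obtain ⟨K2, hK2⟩ := shD n (κ : ℝ) 0 c K
      refine ⟨K2, k₀ + κ + δ + p + 2, fun k hk => ?_⟩
      have hp : p + 1 + 1 ≤ r * (k - δ) := by
        have : k - δ ≤ r * (k - δ) := Nat.le_mul_of_pos_left _ hr
        omega
      have b1 := hrec (p + 1) k (by omega) (by omega) hp
      have b2 := hK (k + κ) (by omega)
      have b3 := hK2 (k : ℝ) (by
        rw [abs_of_nonneg (Nat.cast_nonneg κ)]
        exact_mod_cast (by omega : κ ≤ k))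
      rw [hadd] at b2
      simp only [Nat.add_sub_cancel] at b1
      simp only [zero_mul, zero_add, add_zero] at b3
      linarith [b1, b2, b3]
  intro p
  induction p with
  | zero =>
    refine ⟨K0, 1, fun k hk => ?_⟩
    have := (abs_le.1 (hD0 k hk)).2
    push_cast
    linarith
  | succ p ih =>
    obtain ⟨K, k₀, hK⟩ := ih
    obtain ⟨K1, k₁, hK1⟩ := hF p
    obtain ⟨K2, hK2⟩ := shD n (-(δ : ℝ)) α ((1 - 2 * (p : ℝ)) * γ) K
    refine ⟨K1 + K2, k₀ + k₁ + δ + 1, fun k hk => ?_⟩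
    have a1 := hK (k - δ) (by omega)
    have a2 := hK1 k (by omega)
    have a3 := hK2 (k : ℝ) (by
      rw [abs_neg, abs_of_nonneg (Nat.cast_nonneg δ)]
      exact_mod_cast (by omega : δ ≤ k))
    rw [hsub k (by omega)] at a1
    push_cast
    rw [hc] at a2
    nlinarith [a1, a2, a3]

end Pool.Agent.Helper73.KPA
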