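import Pool.Agent.Helper5.KPA.StN

/-! PROJECT KP (MP_26be5b_ag), module AGR: the graded rings. -/

set_option autoImplicit false

namespace Pool.Agent.Helper73.KPA

open Pool.Agent.Helper5.KPA Pool.Agent.Helper52.KP MvPolynomial

private theorem anti' {C : Cone} {r : ℕ} {F : ℕ → ℕ → Submodule ℂ (MvPolynomial (Fin C.m) ℂ)}
    (hF : NF C r F) (k l l' : ℕ) (h : l ≤ l') : F k l' ≤ F k l := by
  induction l', h using Nat.le_induction with
  | base => exact le_refl _
  | succ n _ ih => exact (hF.anti k n).trans ih

private theorem top_eq {C : Cone} {r : ℕ} {F : ℕ → ℕ → Submodule ℂ (MvPolynomial (Fin C.m) ℂ)}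
    (hF : NF C r F) (k : ℕ) : F k 0 ≤ F k k := by
  induction k with
  | zero => exact le_refl _
  | succ k ih =>
    rcases Nat.eq_zero_or_pos k with rfl | hk
    · change F 1 0 ≤ F 1 1
      rw [hF.zero, hF.one, mul_one]
    · rw [hF.gen k 0 hk, Submodule.span_le]
      rintro _ ⟨i, j, f, f', hij, hf, hf', rfl⟩
      have hi : i = 0 := by omega
      have hj : j = 0 := by omega
      subst hi hj
      have h1 : F 1 0 ≤ F 1 1 := by rw [hF.zero, hF.one, mul_one]
      exact hF.mul k k 1 1 f f' (ih hf) (h1 hf')

private theorem bot_of {C : Cone} {r : ℕ} {F : ℕ → ℕ → Submodule ℂ (MvPolynomial (Fin C.m) ℂ)}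
    (hF : NF C r F) (L : ℕ) (hL : F 1 L = ⊥) (k : ℕ) : ∀ l, k * L + 1 ≤ l → F k l = ⊥ := by
  induction k with
  | zero =>
    intro l hl
    rw [eq_bot_iff, ← hF.sep0]
    exact anti' hF 0 1 l (by omega)
  | succ k ih =>
    intro l hl
    rcases Nat.eq_zero_or_pos k with rfl | hk
    · change F 1 l = ⊥
      rw [eq_bot_iff, ← hL]
      exact anti' hF 1 L l (by omega)
    · rw [hF.gen k l hk, Submodule.span_eq_bot]
      rintro _ ⟨i, j, f, f', hij, hf, hf', rfl⟩
      have h3 : (k + 1) * L = k * L + L := by ring
      rcases Nat.lt_or_ge i (k * L + 1) with h1 | h1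
      · have h2 : L ≤ j := by omega
        have h4 : f' ∈ F 1 L := anti' hF 1 L j h2 hf'
        rw [hL, Submodule.mem_bot] at h4
        rw [h4, mul_zero]
      · rw [ih i h1, Submodule.mem_bot] at hf
        rw [hf, zero_mul]

private theorem indep_hom {C : Cone} (hC : Good C) (d : ℕ) (hd : 0 < d) (s : Finset ℕ)
    (x : ℕ → MvPolynomial (Fin C.m) ℂ) (hx : ∀ k ∈ s, x k ∈ C.R (d * k))
    (h0 : ∑ k ∈ s, x k = 0) : ∀ k ∈ s, x k = 0 := by
  intro k hk
  apply MvPolynomial.funext
  intro z
  rw [map_zero]
  obtain ⟨P, hP⟩ : ∃ P : Polynomial ℂ, P = ∑ i ∈ s, Polynomial.C (ev (x i) z) *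
    Polynomial.X ^ (d * i) := ⟨_, rfl⟩
  have hPe : P = 0 := by
    apply Polynomial.funext
    intro c
    rw [hP, Polynomial.eval_finsetSum, Polynomial.eval_zero]
    have h1 : ∀ i ∈ s, Polynomial.eval c (Polynomial.C (ev (x i) z) * Polynomial.X ^ (d * i)) =
        ev (x i) (scl C.w c z) := by
      intro i hi
      rw [hC.hom _ _ (hx i hi), Polynomial.eval_mul, Polynomial.eval_C, Polynomial.eval_pow,
        Polynomial.eval_X, mul_comm]
    rw [Finset.sum_congr rfl h1]
    have h2 := congrArg (fun p => ev p (scl C.w c z)) h0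
    simp only [map_sum, map_zero] at h2
    exact h2
  have h3 := congrArg (fun p => Polynomial.coeff p (d * k)) hPe
  simp only [Polynomial.coeff_zero] at h3
  rw [hP, Polynomial.finsetSum_coeff, Finset.sum_eq_single k] at h3
  · rw [Polynomial.coeff_C_mul, Polynomial.coeff_X_pow, if_pos rfl, mul_one] at h3
    exact h3
  · intro i _ hi
    rw [Polynomial.coeff_C_mul, Polynomial.coeff_X_pow, if_neg, mul_zero]
    intro h4
    exact hi (Nat.eq_of_mul_eq_mul_left hd h4).symm
  · intro h4
    exact absurd hk h4

private theorem mon_mem {m : ℕ} (F : ℕ → ℕ → Submodule ℂ (MvPolynomial (Fin m) ℂ)) (k l : ℕ)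
    (f : MvPolynomial (Fin m) ℂ) (hf : f ∈ F k l) : Polynomial.monomial l f ∈ BB F k := by
  intro i
  rw [Polynomial.coeff_monomial]
  split_ifs with h
  · rw [← h]; exact hf
  · exact Submodule.zero_mem _

theorem hAGR : StAGR := by
  intro C hC r F hF
  have hd : 0 < C.n * r := Nat.mul_pos hC.hn hF.hr
  obtain ⟨L, hL⟩ := hF.sep
  have hbot := bot_of hF L hL
  have hF0 : ∀ k l, F k l ≤ C.R (C.n * r * k) := by
    intro k l
    rw [← hF.zero k]
    exact anti' hF k 0 l (Nat.zero_le l)
  have hmulB : ∀ i j x y, x ∈ BB F i → y ∈ BB F j → x * y ∈ BB F (i + j) := by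
    intro i j x y hx hy l
    rw [Polynomial.coeff_mul]
    refine Submodule.sum_mem _ ?_
    rintro ⟨a, b⟩ hab
    have hab' : a + b = l := Finset.HasAntidiagonal.mem_antidiagonal.1 hab
    subst hab'
    exact hF.mul i a j b _ _ (hx a) (hy b)
  have hmulR : ∀ i j x y, x ∈ RD C r i → y ∈ RD C r j → x * y ∈ RD C r (i + j) := by
    intro i j x y hx hy
    unfold RD at hx hy ⊢
    rw [mul_add]
    exact hC.mul _ _ _ _ hx hy
  have h1B : (1 : QQ C.m) ∈ BB F 0 := by
    intro l
    rw [Polynomial.coeff_one]
    split_ifs with h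
    · rw [h, hF.zero, mul_zero]
      exact hC.one
    · exact Submodule.zero_mem _
  have h1R : (1 : MvPolynomial (Fin C.m) ℂ) ∈ RD C r 0 := by
    unfold RD
    rw [mul_zero]
    exact hC.one
  refine ⟨⟨?_, ?_, ?_, hmulB, ?_⟩, ⟨?_, ?_, ?_, hmulR, ?_⟩, ?_, ⟨L, fun k l h => hbot k l h⟩⟩
  · rw [iSupIndep_iff_finsetSum_eq_zero_imp_eq_zero]
    intro s v hv h0 k hk
    ext1 l
    rw [Polynomial.coeff_zero]
    refine indep_hom hC _ hd s (fun k => (v k).coeff l) (fun i hi => hF0 i l (hv i hi l)) ?_ k hk
    have := congrArg (fun p => Polynomial.coeff p l) h0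
    simp only [Polynomial.finsetSum_coeff, Polynomial.coeff_zero] at this
    exact this
  · apply le_antisymm
    · intro x hx
      have h2 : x = Polynomial.C (x.coeff 0) := by
        ext1 l
        rw [Polynomial.coeff_C]
        split_ifs with h
        · rw [h]
        · have h3 := hx l
          rw [hbot 0 l (by omega), Submodule.mem_bot] at h3
          exact h3
      have h4 := hx 0
      rw [hF.zero, mul_zero] at h4
      obtain ⟨c, hc⟩ := hC.cst _ h4
      rw [h2, hc, Submodule.mem_span_singleton]
      refine ⟨c, ?_⟩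
      rw [← Polynomial.C_1, Polynomial.smul_C]
      congr 1
      rw [MvPolynomial.smul_eq_C_mul, mul_one]
    · rw [Submodule.span_le, Set.singleton_subset_iff]
      exact h1B
  · intro k
    have hfd : ∀ l, FiniteDimensional ℂ (F k l) := by
      intro l
      have := hC.fd (C.n * r * k)
      exact Submodule.finiteDimensional_of_le (hF0 k l)
    let f : BB F k →ₗ[ℂ] ((l : Fin (k * L + 1)) → F k l) :=
      { toFun := fun x l => ⟨(x : QQ C.m).coeff l, x.2 l⟩
        map_add' := by
          intro x y
          funext l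
          apply Subtype.ext
          simp
        map_smul' := by
          intro c x
          funext l
          apply Subtype.ext
          simp }
    have hinj : Function.Injective f := by
      intro x y hx
      apply Subtype.ext
      ext1 l
      rcases Nat.lt_or_ge l (k * L + 1) with h | h
      · have h5 := congrFun hx ⟨l, h⟩
        exact congrArg Subtype.val h5
      · have h6 := x.2 l
        have h7 := y.2 l
        rw [hbot k l h, Submodule.mem_bot] at h6 h7
        rw [h6, h7]
    exact FiniteDimensional.of_injective f hinj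
  · intro k
    apply le_antisymm
    · rcases Nat.eq_zero_or_pos k with rfl | hk
      · intro y hy
        apply Submodule.subset_span
        exact ⟨1, h1B, y, hy, (one_mul y).symm⟩
      · intro x hx
        rw [x.as_sum_range]
        refine Submodule.sum_mem _ fun l _ => ?_
        have h2 := hx l
        rw [hF.gen k l hk] at h2
        generalize x.coeff l = f at h2
        induction h2 using Submodule.span_induction with
        | mem g hg =>
          obtain ⟨i, j, f, f', hij, hf, hf', rfl⟩ := hg
          apply Submodule.subset_span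
          refine ⟨Polynomial.monomial i f, mon_mem F k i f hf, Polynomial.monomial j f',
            mon_mem F 1 j f' hf', ?_⟩
          rw [Polynomial.monomial_mul_monomial, hij]
        | zero => rw [map_zero]; exact Submodule.zero_mem _
        | add a b _ _ iha ihb => rw [map_add]; exact Submodule.add_mem _ iha ihb
        | smul c a _ ih =>
          rw [← Polynomial.smul_monomial]
          exact Submodule.smul_mem _ c ih
    · rw [Submodule.span_le]
      rintro _ ⟨x, hx, y, hy, rfl⟩
      exact hmulB k 1 x y hx hy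
  · rw [iSupIndep_iff_finsetSum_eq_zero_imp_eq_zero]
    intro s v hv h0 k hk
    exact indep_hom hC _ hd s v hv h0 k hk
  · apply le_antisymm
    · intro x hx
      unfold RD at hx
      rw [mul_zero] at hx
      obtain ⟨c, hc⟩ := hC.cst _ hx
      rw [hc, Submodule.mem_span_singleton]
      exact ⟨c, by rw [MvPolynomial.smul_eq_C_mul, mul_one]⟩
    · rw [Submodule.span_le, Set.singleton_subset_iff]
      exact h1R
  · intro k
    exact hC.fd _
  · intro k
    apply le_antisymm
    · rcases Nat.eq_zero_or_pos k with rfl | hk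
      · intro y hy
        apply Submodule.subset_span
        exact ⟨1, h1R, y, hy, (one_mul y).symm⟩
      · have h2 : RD C r (k + 1) = F (k + 1) 0 := (hF.zero (k + 1)).symm
        rw [h2, hF.gen k 0 hk]
        apply Submodule.span_mono
        rintro _ ⟨i, j, f, f', hij, hf, hf', rfl⟩
        refine ⟨f, hF0 k i hf, f', hF0 1 j hf', rfl⟩
    · rw [Submodule.span_le]
      rintro _ ⟨x, hx, y, hy, rfl⟩
      exact hmulR k 1 x y hx hy
  · intro k l hl
    apply le_antisymm (hF0 k l)
    rw [← hF.zero k]
    exact (top_eq hF k).trans (anti' hF k l k hl)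

end Pool.Agent.Helper73.KPA
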